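import Pool.Agent.Lib.MP_688fd0_co.TF.Iface3
import Pool.Agent.Lib.MP_688fd0_co.TE.H67.Lowb

/-!
# Theorem F, module LOWBF: the expected unclean weight
-/

set_option autoImplicit false

namespace Pool.Agent.Lib.MP_688fd0_co.TF.H62

open Pool.Agent.Lib.MP_688fd0_co.TE Pool.Agent.Lib.MP_688fd0_co.TE.H67 Pool.Agent.Lib.MP_688fd0_co.TF

universe u v

section

variable {V : Type u} {Val : Type v} [Fintype V] [Fintype Val] [DecidableEq V] {a : ℕ} (M : LM V Val a)

/-- the law of one field value -/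
theorem law_val (hE : EXX_S.{u, v}) (j : ℕ) (hj : j < a) (u : V) (e : Val) :
    Ex M.law (fun ω => ind (val ω j u = some e)) = M.P u e := by
  obtain ⟨_, h2, _⟩ := hE V Val a M
  by_cases h0 : M.P u e = 0
  · rw [h0]
    refine Finset.sum_eq_zero fun ω _ => ?_
    dsimp only
    by_cases h : val ω j u = some e
    · rw [law_zero M ω j u e h h0, zero_mul]
    · rw [ind_not h, mul_zero]
  · have h3 := h2 [(u, e)] j (by simp; omega) (by simpa using h0)
    have h4 : ∀ ω, M.xw ω j [(u, e)] = (M.P u e)⁻¹ * ind (val ω j u = some e) := by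
      intro ω
      rw [LM.xw, LM.xw, mul_one, div_eq_mul_inv]
      ring
    simp only [h4] at h3
    rw [H67.Ex_mul, inv_mul_eq_iff_eq_mul₀ h0, mul_one] at h3
    exact h3

/-- the probability that `w` is touched -/
theorem tch_bd (hE : EXX_S.{u, v}) (w : V) : Pr M.law (fun ω => M.tch ω w) ≤ a * M.pt := by
  have hlaw : ∀ ω, 0 ≤ M.law ω := (hE V Val a M).1.nn
  have h1 : ∀ ω : Fld a V Val, ind (M.tch ω w) ≤
      ∑ p : Fin a × V × Val, ind (p.2.1 = w ∨ M.ex p.2.1 p.2.2 = w) *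
        ind (val ω p.1 p.2.1 = some p.2.2) := by
    intro ω
    by_cases h : M.tch ω w
    · rw [ind_of h]
      obtain ⟨j, u, e, h1, h2⟩ := h
      have hj : j < a := by
        by_contra hj
        rw [val, dif_neg hj] at h1
        exact absurd h1 (by simp)
      have hterm := Finset.single_le_sum (s := (Finset.univ : Finset (Fin a × V × Val)))
        (f := fun p => ind (p.2.1 = w ∨ M.ex p.2.1 p.2.2 = w) *
          ind (val ω p.1 p.2.1 = some p.2.2))
        (fun p _ => mul_nonneg (ind_nonneg _) (ind_nonneg _))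
        (Finset.mem_univ (⟨j, hj⟩, u, e))
      refine le_trans (le_of_eq ?_) hterm
      dsimp only
      rw [ind_of h1, ind_of h2, one_mul]
    · rw [ind_not h]
      exact Finset.sum_nonneg fun p _ => mul_nonneg (ind_nonneg _) (ind_nonneg _)
  have h2 : Pr M.law (fun ω => M.tch ω w) ≤ Ex M.law (fun ω => ∑ p : Fin a × V × Val,
      ind (p.2.1 = w ∨ M.ex p.2.1 p.2.2 = w) * ind (val ω p.1 p.2.1 = some p.2.2)) :=
    H67.Ex_mono hlaw h1
  refine h2.trans ?_
  rw [H67.Ex_sum, Fintype.sum_prod_type]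
  have h3 : ∀ j : Fin a, (∑ p : V × Val, Ex M.law (fun ω =>
      ind (p.1 = w ∨ M.ex p.1 p.2 = w) * ind (val ω (j : ℕ) p.1 = some p.2))) ≤ M.pt := by
    intro j
    refine le_trans (le_of_eq ?_) (M.hpt w)
    rw [Fintype.sum_prod_type]
    refine Finset.sum_congr rfl fun u _ => Finset.sum_congr rfl fun e _ => ?_
    dsimp only
    rw [H67.Ex_mul, law_val M hE j j.2 u e, mul_comm]
  refine (Finset.sum_le_sum fun j _ => h3 j).trans (le_of_eq ?_)
  rw [Finset.sum_const, Finset.card_univ, Fintype.card_fin, nsmul_eq_mul]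

end

/-- Module LOWBF. -/
theorem lowbf (hE : EXX_S.{u, v}) : LOWBF_S.{u, v} := by
  intro V Val _ _ _ a M x y g hpos hg
  refine ⟨?_, fun w => tch_bd M hE w⟩
  rw [H67.Ex_sumL]
  have hpw0 : ∀ (l : List (V × Val)) (j : ℕ) (x y : V), (∃ s ∈ l, M.P s.1 s.2 = 0) →
      M.pw j x l y = 0 := by
    intro l
    induction l with
    | nil => intro j x y h; obtain ⟨s, hs, _⟩ := h; exact absurd hs (by simp)
    | cons s l ih =>
      rintro j x y ⟨s', hs', h0⟩
      rcases List.mem_cons.1 hs' with rfl | h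
      · rw [LM.pw, hpos j _ _ h0, mul_zero, zero_mul]
      · rw [LM.pw, ih _ _ _ ⟨s', h, h0⟩, mul_zero]
  have hpw : ∀ (l : List (V × Val)) (j : ℕ) (x y : V), 0 ≤ M.pw j x l y := by
    intro l
    induction l with
    | nil => intro j x y; exact M.hC0 _ _ _
    | cons s l ih =>
      intro j x y
      exact mul_nonneg (mul_nonneg (M.hC0 _ _ _) (M.hk0 _ _ _)) (ih _ _ _)
  rw [← H67.sumL_mul]
  refine H67.sumL_mono _ _ _ fun z hz => ?_
  have e1 : ∀ ω : Fld a V Val, M.pw 0 x z y * g z * M.xw ω 0 z * ind (M.vdis z ∧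
      ∃ (i j : ℕ) (s : V × Val) (w u : V) (e : Val), z[i]? = some s ∧
        (s.1 = w ∨ M.ex s.1 s.2 = w) ∧ val ω j u = some e ∧ (u = w ∨ M.ex u e = w) ∧
        ¬ (j = i ∧ (u, e) = s)) = (M.pw 0 x z y * g z) * (M.xw ω 0 z * ind (M.vdis z ∧
      ∃ (i j : ℕ) (s : V × Val) (w u : V) (e : Val), z[i]? = some s ∧
        (s.1 = w ∨ M.ex s.1 s.2 = w) ∧ val ω j u = some e ∧ (u = w ∨ M.ex u e = w) ∧
        ¬ (j = i ∧ (u, e) = s))) := fun ω => by ring
  simp only [e1]
  rw [H67.Ex_mul]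
  by_cases h0 : ∃ s ∈ z, M.P s.1 s.2 = 0
  · rw [hpw0 z 0 x y h0]
    simp
  · have hP : ∀ s ∈ z, M.P s.1 s.2 ≠ 0 := fun s hs h => h0 ⟨s, hs, h⟩
    have h1 := mul_le_mul_of_nonneg_left (fixed_bd M hE z hz hP)
      (mul_nonneg (hpw z 0 x y) (hg z))
    refine h1.trans (le_of_eq ?_)
    ring

end Pool.Agent.Lib.MP_688fd0_co.TF.H62
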