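import Pool.Agent.Lib.MP_688fd0_co.TF.Iface3
import Pool.Agent.Lib.MP_688fd0_co.TE.H69.Lowc

/-!
# Theorem F, module LOWCF: the expected truncated weight
-/

set_option autoImplicit false

namespace Pool.Agent.Lib.MP_688fd0_co.TF.H62

open Pool.Agent.Lib.MP_688fd0_co.TE Pool.Agent.Lib.MP_688fd0_co.TF

universe u v

theorem le_sumL {S : Type*} [Fintype S] (n : ℕ) {F : List S → ℝ} (h : ∀ l, 0 ≤ F l) (l : List S)
    (hl : l.length = n) : F l ≤ sumL n F := by
  induction n generalizing F l with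
  | zero =>
    rw [List.length_eq_zero_iff.1 hl]
    exact le_rfl
  | succ n ih =>
    cases l with
    | nil => simp at hl
    | cons s l =>
      have h1 := ih (F := fun l => F (s :: l)) (fun l => h _) l (by simpa using hl)
      have h2 : sumL n (fun l => F (s :: l)) ≤ ∑ s, sumL n (fun l => F (s :: l)) :=
        Finset.single_le_sum (f := fun s => sumL n (fun l => F (s :: l)))
          (fun s _ => H69.sumL_nonneg n fun l _ => h _) (Finset.mem_univ s)
      exact h1.trans h2

theorem get_mid {S : Type*} (l l' : List S) (s : S) (n : ℕ) (hl : l.length = n) :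
    (l ++ s :: l')[n]? = some s := by
  rw [List.getElem?_append_right (by omega)]
  simp [hl]

section

variable {V : Type u} {Val : Type v} [Fintype V] [Fintype Val] [DecidableEq V] {a : ℕ} (M : LM V Val a)

/-- the inner sum, first half -/
noncomputable def AX (jm : ℕ) (x u : V) (l : List (V × Val)) : ℝ :=
  sumL jm (fun l' => M.pw 0 x l' u * M.pg l l')

/-- the inner sum, second half -/
noncomputable def AY (jm : ℕ) (y w : V) (l : List (V × Val)) : ℝ :=
  sumL (a - 1 - jm) (fun l' => M.pw (jm + 1) w l' y * M.pg l l')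

/-- the bound for one walk, first half -/
noncomputable def FX (jm : ℕ) (lam : ℝ) (x : V) (z : List (V × Val)) : ℝ :=
  (z[jm]?).elim 0 (fun s => 1 / (lam * M.ka jm x s.1) * AX M jm x s.1 (z.take jm))

/-- the bound for one walk, second half -/
noncomputable def FY (jm : ℕ) (lam : ℝ) (y : V) (z : List (V × Val)) : ℝ :=
  (z[jm]?).elim 0 (fun s => 1 / (lam * M.kc jm (M.ex s.1 s.2) y) *
    AY M jm y (M.ex s.1 s.2) (z.drop (jm + 1)))

theorem walk_x (hEXX : EXX_S.{u, v}) (hPFG : PFG_S.{u, v}) (hPWC : PWC_S.{u, v}) (jm : ℕ)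
    (lam : ℝ) (x y : V) (hjm : jm < a) (hlam : 0 < lam)
    (hpos : ∀ j u e, M.P u e = 0 → M.kap j u e = 0)
    (hpr0 : ∀ z, 0 ≤ M.pr jm x y z) (z : List (V × Val)) (hz : z.length = a) :
    Ex M.law (fun ω => M.pr jm x y z * M.xw ω 0 z *
      ind (∃ s, z[jm]? = some s ∧ lam * M.ka jm x s.1 < M.ZXm jm ω x s.1)) ≤
      M.pr jm x y z * FX M jm lam x z := by
  obtain ⟨hpr, hx1, hx2⟩ := hEXX V Val a M
  have hjz : jm < z.length := by rw [hz]; exact hjm
  have hget : z[jm]? = some z[jm] := List.getElem?_eq_getElem hjz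
  have hF : FX M jm lam x z = 1 / (lam * M.ka jm x z[jm].1) * AX M jm x z[jm].1 (z.take jm) := by
    unfold FX
    rw [hget]
    rfl
  rw [hF]
  set s := z[jm] with hs
  by_cases h0 : M.pw 0 x z y = 0
  · have : M.pr jm x y z = 0 := by
      unfold LM.pr
      rw [h0, zero_mul]
    rw [this]
    unfold Ex
    simp
  have hPz := H69.pw_ne M hpos h0
  have htk : (z.take jm).length = jm := by
    rw [List.length_take]
    omega
  have hka : 0 < M.ka jm x s.1 := by
    have h1 := (hPWC V Val a M).1 (z.take jm) (z.drop (jm + 1)) s 0 x y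
    rw [hs, List.getElem_cons_drop, List.take_append_drop] at h1
    have h2 : M.pw 0 x (z.take jm) s.1 ≠ 0 := by
      intro h3
      apply h0
      rw [h1, ← hs, h3, zero_mul, zero_mul]
    have h3 : M.pw 0 x (z.take jm) s.1 ≤ M.ka jm x s.1 :=
      le_sumL jm (F := fun l => M.pw 0 x l s.1) (fun l => H69.pw_nonneg M _ _ _ _) _ htk
    exact lt_of_lt_of_le (lt_of_le_of_ne (H69.pw_nonneg M _ _ _ _) h2.symm) h3
  have hc : 0 < lam * M.ka jm x s.1 := mul_pos hlam hka
  have e2 : ∀ ω, M.pr jm x y z * M.xw ω 0 z *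
      ind (∃ s, z[jm]? = some s ∧ lam * M.ka jm x s.1 < M.ZXm jm ω x s.1) ≤
      (M.pr jm x y z / (lam * M.ka jm x s.1)) *
        sumL jm (fun l => M.pw 0 x l s.1 * (M.xw ω 0 z * M.xw ω 0 l)) := by
    intro ω
    have i1 : ind (∃ s, z[jm]? = some s ∧ lam * M.ka jm x s.1 < M.ZXm jm ω x s.1) ≤
        ind (lam * M.ka jm x s.1 < M.ZXm jm ω x s.1) := by
      apply ind_mono
      rintro ⟨s', h1, h2⟩
      rw [hget] at h1
      cases h1
      exact h2
    have i2 : 0 ≤ M.ZXm jm ω x s.1 :=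
      H69.sumL_nonneg _ fun l _ => mul_nonneg (H69.pw_nonneg M _ _ _ _) (H69.xw_nonneg M ω _ _)
    have i3 := i1.trans (H69.ind_lt_le hc i2)
    have i4 : 0 ≤ M.pr jm x y z * M.xw ω 0 z := mul_nonneg (hpr0 z) (H69.xw_nonneg M ω _ _)
    refine (mul_le_mul_of_nonneg_left i3 i4).trans (le_of_eq ?_)
    have i5 : M.xw ω 0 z * M.ZXm jm ω x s.1 =
        sumL jm (fun l => M.pw 0 x l s.1 * (M.xw ω 0 z * M.xw ω 0 l)) := by
      unfold LM.ZXm
      rw [← H69.sumL_mul]
      exact H69.sumL_congr _ fun l _ => by ring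
    rw [← i5]
    ring
  refine (H69.Ex_mono hpr.nn e2).trans ?_
  rw [H69.Ex_mul_left, H69.Ex_sumL]
  have e3 : sumL jm (fun l => Ex M.law (fun ω => M.pw 0 x l s.1 *
      (M.xw ω 0 z * M.xw ω 0 l))) ≤ AX M jm x s.1 (z.take jm) := by
    refine H69.sumL_mono _ fun l hl => ?_
    rw [H69.Ex_mul_left]
    by_cases h0' : M.pw 0 x l s.1 = 0
    · rw [h0']
      simp
    have h1 := hx2 [] (z.take jm) (z.drop jm) l
      (by rw [List.length_nil, htk, List.length_drop, hz]; omega)
      (by rw [htk, hl])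
      (by rw [List.nil_append, List.take_append_drop]; exact hPz) (H69.pw_ne M hpos h0')
    rw [List.nil_append, List.take_append_drop, List.length_nil] at h1
    rw [h1]
    exact mul_le_mul_of_nonneg_left (hPFG V Val a M _ _).2.1 (H69.pw_nonneg M _ _ _ _)
  have e4 : 0 ≤ M.pr jm x y z / (lam * M.ka jm x s.1) := div_nonneg (hpr0 z) hc.le
  refine (mul_le_mul_of_nonneg_left e3 e4).trans (le_of_eq ?_)
  ring

theorem walk_y (hEXX : EXX_S.{u, v}) (hPFG : PFG_S.{u, v}) (hPWC : PWC_S.{u, v}) (jm : ℕ)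
    (lam : ℝ) (x y : V) (hjm : jm < a) (hlam : 0 < lam)
    (hpos : ∀ j u e, M.P u e = 0 → M.kap j u e = 0)
    (hpr0 : ∀ z, 0 ≤ M.pr jm x y z) (z : List (V × Val)) (hz : z.length = a) :
    Ex M.law (fun ω => M.pr jm x y z * M.xw ω 0 z *
      ind (∃ s, z[jm]? = some s ∧
        lam * M.kc jm (M.ex s.1 s.2) y < M.ZYm jm ω (M.ex s.1 s.2) y)) ≤
      M.pr jm x y z * FY M jm lam y z := by
  obtain ⟨hpr, hx1, hx2⟩ := hEXX V Val a M
  have hjz : jm < z.length := by rw [hz]; exact hjm
  have hget : z[jm]? = some z[jm] := List.getElem?_eq_getElem hjz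
  have hF : FY M jm lam y z = 1 / (lam * M.kc jm (M.ex z[jm].1 z[jm].2) y) *
      AY M jm y (M.ex z[jm].1 z[jm].2) (z.drop (jm + 1)) := by
    unfold FY
    rw [hget]
    rfl
  rw [hF]
  set s := z[jm] with hs
  by_cases h0 : M.pw 0 x z y = 0
  · have : M.pr jm x y z = 0 := by
      unfold LM.pr
      rw [h0, zero_mul]
    rw [this]
    unfold Ex
    simp
  have hPz := H69.pw_ne M hpos h0
  have htk : (z.take jm).length = jm := by
    rw [List.length_take]
    omega
  have htk' : (z.take (jm + 1)).length = jm + 1 := by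
    rw [List.length_take]
    omega
  have hdr : (z.drop (jm + 1)).length = a - 1 - jm := by
    rw [List.length_drop]
    omega
  have hkc : 0 < M.kc jm (M.ex s.1 s.2) y := by
    have h1 := (hPWC V Val a M).1 (z.take jm) (z.drop (jm + 1)) s 0 x y
    rw [hs, List.getElem_cons_drop, List.take_append_drop, ← hs, htk, zero_add] at h1
    have h2 : M.pw (jm + 1) (M.ex s.1 s.2) (z.drop (jm + 1)) y ≠ 0 := by
      intro h3
      apply h0
      rw [h1, h3, mul_zero]
    have h3 : M.pw (jm + 1) (M.ex s.1 s.2) (z.drop (jm + 1)) y ≤ M.kc jm (M.ex s.1 s.2) y :=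
      le_sumL (a - 1 - jm) (F := fun l => M.pw (jm + 1) (M.ex s.1 s.2) l y)
        (fun l => H69.pw_nonneg M _ _ _ _) _ hdr
    exact lt_of_lt_of_le (lt_of_le_of_ne (H69.pw_nonneg M _ _ _ _) h2.symm) h3
  have hc : 0 < lam * M.kc jm (M.ex s.1 s.2) y := mul_pos hlam hkc
  have e2 : ∀ ω, M.pr jm x y z * M.xw ω 0 z *
      ind (∃ s, z[jm]? = some s ∧
        lam * M.kc jm (M.ex s.1 s.2) y < M.ZYm jm ω (M.ex s.1 s.2) y) ≤
      (M.pr jm x y z / (lam * M.kc jm (M.ex s.1 s.2) y)) *
        sumL (a - 1 - jm) (fun l => M.pw (jm + 1) (M.ex s.1 s.2) l y *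
          (M.xw ω 0 z * M.xw ω (jm + 1) l)) := by
    intro ω
    have i1 : ind (∃ s, z[jm]? = some s ∧
          lam * M.kc jm (M.ex s.1 s.2) y < M.ZYm jm ω (M.ex s.1 s.2) y) ≤
        ind (lam * M.kc jm (M.ex s.1 s.2) y < M.ZYm jm ω (M.ex s.1 s.2) y) := by
      apply ind_mono
      rintro ⟨s', h1, h2⟩
      rw [hget] at h1
      cases h1
      exact h2
    have i2 : 0 ≤ M.ZYm jm ω (M.ex s.1 s.2) y :=
      H69.sumL_nonneg _ fun l _ => mul_nonneg (H69.pw_nonneg M _ _ _ _) (H69.xw_nonneg M ω _ _)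
    have i3 := i1.trans (H69.ind_lt_le hc i2)
    have i4 : 0 ≤ M.pr jm x y z * M.xw ω 0 z := mul_nonneg (hpr0 z) (H69.xw_nonneg M ω _ _)
    refine (mul_le_mul_of_nonneg_left i3 i4).trans (le_of_eq ?_)
    have i5 : M.xw ω 0 z * M.ZYm jm ω (M.ex s.1 s.2) y =
        sumL (a - 1 - jm) (fun l => M.pw (jm + 1) (M.ex s.1 s.2) l y *
          (M.xw ω 0 z * M.xw ω (jm + 1) l)) := by
      unfold LM.ZYm
      rw [← H69.sumL_mul]
      exact H69.sumL_congr _ fun l _ => by ring
    rw [← i5]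
    ring
  refine (H69.Ex_mono hpr.nn e2).trans ?_
  rw [H69.Ex_mul_left, H69.Ex_sumL]
  have e3 : sumL (a - 1 - jm) (fun l => Ex M.law (fun ω =>
      M.pw (jm + 1) (M.ex s.1 s.2) l y * (M.xw ω 0 z * M.xw ω (jm + 1) l))) ≤
        AY M jm y (M.ex s.1 s.2) (z.drop (jm + 1)) := by
    refine H69.sumL_mono _ fun l hl => ?_
    rw [H69.Ex_mul_left]
    by_cases h0' : M.pw (jm + 1) (M.ex s.1 s.2) l y = 0
    · rw [h0']
      simp
    have h1 := hx2 (z.take (jm + 1)) (z.drop (jm + 1)) [] l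
      (by rw [List.length_nil, htk', hdr]; omega)
      (by rw [hdr, hl])
      (by rw [List.append_nil, List.take_append_drop]; exact hPz) (H69.pw_ne M hpos h0')
    rw [List.append_nil, List.take_append_drop, htk'] at h1
    rw [h1]
    exact mul_le_mul_of_nonneg_left (hPFG V Val a M _ _).2.1 (H69.pw_nonneg M _ _ _ _)
  have e4 : 0 ≤ M.pr jm x y z / (lam * M.kc jm (M.ex s.1 s.2) y) := div_nonneg (hpr0 z) hc.le
  refine (mul_le_mul_of_nonneg_left e3 e4).trans (le_of_eq ?_)
  ring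

end

/-- `t * k ≤ 2 * c` and division by `c`. -/
theorem div_bd {t k c lam : ℝ} (hlam : 0 < lam) (hc : 0 ≤ c) (h : t * k ≤ 2 * c) :
    t * k * (1 / (lam * c)) ≤ 2 / lam := by
  rcases eq_or_lt_of_le hc with h0 | h0
  · rw [← h0, mul_zero, div_zero, mul_zero]
    positivity
  · have h1 : t * k * (1 / (lam * c)) ≤ 2 * c * (1 / (lam * c)) :=
      mul_le_mul_of_nonneg_right h (by positivity)
    refine h1.trans (le_of_eq ?_)
    field_simp

/-- Module LOWCF. -/
theorem lowcf (hR : RHOF_S.{u, v}) (hEXX : EXX_S.{u, v}) (hPFG : PFG_S.{u, v})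
    (hPWC : PWC_S.{u, v}) : LOWCF_S.{u, v} := by
  intro V Val _ _ _ a M jm lam S x y hjm hlam hpos hkx hSx hSy
  obtain ⟨hmw, hgm, hpr, hsum⟩ := hR V Val a M jm hjm x y
  have hpw : ∀ (l : List (V × Val)) (j : ℕ) (x y : V), 0 ≤ M.pw j x l y := fun l j x y =>
    H69.pw_nonneg M _ _ _ _
  have hpg : ∀ l l' : List (V × Val), 0 ≤ M.pg l l' := fun l l' =>
    le_trans zero_le_one (hPFG V Val a M l l').2.2
  have hAX : ∀ u l, 0 ≤ AX M jm x u l := fun u l =>
    H69.sumL_nonneg _ fun l' _ => mul_nonneg (hpw _ _ _ _) (hpg _ _)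
  have hAY : ∀ u l, 0 ≤ AY M jm y u l := fun u l =>
    H69.sumL_nonneg _ fun l' _ => mul_nonneg (hpw _ _ _ _) (hpg _ _)
  have hka0 : ∀ u, 0 ≤ M.ka jm x u := fun u => H69.sumL_nonneg _ fun l _ => hpw _ _ _ _
  have hkc0 : ∀ v, 0 ≤ M.kc jm v y := fun v => H69.sumL_nonneg _ fun l _ => hpw _ _ _ _
  constructor
  · have e0 : Ex M.law (fun ω => sumL a (fun z => M.pr jm x y z * M.xw ω 0 z *
        ind (∃ s, z[jm]? = some s ∧ lam * M.ka jm x s.1 < M.ZXm jm ω x s.1))) ≤
        sumL a (fun z => M.pr jm x y z * FX M jm lam x z) := by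
      rw [H69.Ex_sumL]
      exact H69.sumL_mono _ fun z hz =>
        walk_x M hEXX hPFG hPWC jm lam x y hjm hlam hpos (fun z => (hpr z).1) z hz
    refine e0.trans ?_
    rw [hsum]
    have e1 : ∀ s : V × Val, sumL jm (fun l => sumL (a - 1 - jm) (fun l' =>
        M.pw 0 x l s.1 * M.kap jm s.1 s.2 * M.pw (jm + 1) (M.ex s.1 s.2) l' y *
          M.mw jm x y s * FX M jm lam x (l ++ s :: l'))) ≤
        2 / lam * (M.kap jm s.1 s.2 * sumL jm (fun l => M.pw 0 x l s.1 *
          AX M jm x s.1 l)) := by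
      intro s
      rw [← mul_assoc, ← H69.sumL_mul]
      refine H69.sumL_mono _ fun l hl => ?_
      have e2 : ∀ l' : List (V × Val), M.pw 0 x l s.1 * M.kap jm s.1 s.2 *
          M.pw (jm + 1) (M.ex s.1 s.2) l' y * M.mw jm x y s *
            FX M jm lam x (l ++ s :: l') =
          (M.pw 0 x l s.1 * M.kap jm s.1 s.2 * AX M jm x s.1 l * M.mw jm x y s *
            (1 / (lam * M.ka jm x s.1))) * M.pw (jm + 1) (M.ex s.1 s.2) l' y := by
        intro l'
        have h1 : FX M jm lam x (l ++ s :: l') =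
            1 / (lam * M.ka jm x s.1) * AX M jm x s.1 l := by
          unfold FX
          rw [get_mid l l' s jm hl, List.take_left' hl]
          rfl
        rw [h1]
        ring
      simp only [e2]
      rw [H69.sumL_mul]
      change _ * M.kc jm (M.ex s.1 s.2) y ≤ _
      have h2 := div_bd hlam (hka0 s.1) (hmw s).2.2.2.1
      have h3 : 0 ≤ M.pw 0 x l s.1 * M.kap jm s.1 s.2 * AX M jm x s.1 l :=
        mul_nonneg (mul_nonneg (hpw _ _ _ _) (M.hk0 _ _ _)) (hAX _ _)
      have h4 := mul_le_mul_of_nonneg_left h2 h3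
      refine le_trans (le_of_eq ?_) (h4.trans (le_of_eq ?_))
      · ring
      · ring
    refine (Finset.sum_le_sum fun s _ => e1 s).trans ?_
    rw [← Finset.mul_sum, Fintype.sum_prod_type]
    have e3 : ∑ u, ∑ e, M.kap jm u e * sumL jm (fun l => M.pw 0 x l u * AX M jm x u l) ≤ S := by
      refine le_trans ?_ (hSx x)
      refine Finset.sum_le_sum fun u _ => ?_
      rw [← Finset.sum_mul]
      have h5 : 0 ≤ sumL jm (fun l => M.pw 0 x l u * AX M jm x u l) :=
        H69.sumL_nonneg _ fun l _ => mul_nonneg (hpw _ _ _ _) (hAX _ _)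
      exact (mul_le_mul_of_nonneg_right (M.hk1 jm u) h5).trans (le_of_eq (one_mul _))
    have h6 : 0 ≤ 2 / lam := by positivity
    refine (mul_le_mul_of_nonneg_left e3 h6).trans (le_of_eq ?_)
    ring
  · have e0 : Ex M.law (fun ω => sumL a (fun z => M.pr jm x y z * M.xw ω 0 z *
        ind (∃ s, z[jm]? = some s ∧
          lam * M.kc jm (M.ex s.1 s.2) y < M.ZYm jm ω (M.ex s.1 s.2) y))) ≤
        sumL a (fun z => M.pr jm x y z * FY M jm lam y z) := by
      rw [H69.Ex_sumL]
      exact H69.sumL_mono _ fun z hz =>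
        walk_y M hEXX hPFG hPWC jm lam x y hjm hlam hpos (fun z => (hpr z).1) z hz
    refine e0.trans ?_
    rw [hsum]
    let B : V → ℝ := fun w => sumL (a - 1 - jm) (fun l => M.pw (jm + 1) w l y * AY M jm y w l)
    have hB : ∀ w, 0 ≤ B w := fun w =>
      H69.sumL_nonneg _ fun l _ => mul_nonneg (hpw _ _ _ _) (hAY _ _)
    have e1 : ∀ s : V × Val, sumL jm (fun l => sumL (a - 1 - jm) (fun l' =>
        M.pw 0 x l s.1 * M.kap jm s.1 s.2 * M.pw (jm + 1) (M.ex s.1 s.2) l' y *
          M.mw jm x y s * FY M jm lam y (l ++ s :: l'))) ≤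
        2 / lam * (M.kap jm s.1 s.2 * B (M.ex s.1 s.2)) := by
      intro s
      have e2 : ∀ l : List (V × Val), l.length = jm → sumL (a - 1 - jm) (fun l' =>
          M.pw 0 x l s.1 * M.kap jm s.1 s.2 *
          M.pw (jm + 1) (M.ex s.1 s.2) l' y * M.mw jm x y s *
            FY M jm lam y (l ++ s :: l')) =
          (M.kap jm s.1 s.2 * M.mw jm x y s *
            (1 / (lam * M.kc jm (M.ex s.1 s.2) y)) * B (M.ex s.1 s.2)) * M.pw 0 x l s.1 := by
        intro l hl
        have e3 : ∀ l' : List (V × Val), M.pw 0 x l s.1 * M.kap jm s.1 s.2 *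
            M.pw (jm + 1) (M.ex s.1 s.2) l' y * M.mw jm x y s *
              FY M jm lam y (l ++ s :: l') =
            (M.pw 0 x l s.1 * M.kap jm s.1 s.2 * M.mw jm x y s *
              (1 / (lam * M.kc jm (M.ex s.1 s.2) y))) *
              (M.pw (jm + 1) (M.ex s.1 s.2) l' y * AY M jm y (M.ex s.1 s.2) l') := by
          intro l'
          have h1 : FY M jm lam y (l ++ s :: l') =
              1 / (lam * M.kc jm (M.ex s.1 s.2) y) * AY M jm y (M.ex s.1 s.2) l' := by
            have h2 : (l ++ s :: l').drop (jm + 1) = l' := by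
              rw [← hl, List.drop_append]
              simp
            unfold FY
            rw [get_mid l l' s jm hl, h2]
            rfl
          rw [h1]
          ring
        simp only [e3]
        rw [H69.sumL_mul]
        ring
      rw [H69.sumL_congr _ e2, H69.sumL_mul]
      change _ * M.ka jm x s.1 ≤ _
      have h2 := div_bd hlam (hkc0 (M.ex s.1 s.2)) (hmw s).2.2.2.2
      have h3 : 0 ≤ M.kap jm s.1 s.2 * B (M.ex s.1 s.2) := mul_nonneg (M.hk0 _ _ _) (hB _)
      have h4 := mul_le_mul_of_nonneg_left h2 h3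
      refine le_trans (le_of_eq ?_) (h4.trans (le_of_eq ?_))
      · ring
      · ring
    refine (Finset.sum_le_sum fun s _ => e1 s).trans ?_
    rw [← Finset.mul_sum, Fintype.sum_prod_type]
    have e3 : ∑ u, ∑ e, M.kap jm u e * B (M.ex u e) ≤ S := by
      refine le_trans ?_ (hSy y)
      have e4 : ∀ u e, M.kap jm u e * B (M.ex u e) =
          ∑ w, M.kap jm u e * ind (M.ex u e = w) * B w := by
        intro u e
        rw [Finset.sum_eq_single (M.ex u e)]
        · rw [ind_of rfl, mul_one]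
        · intro w _ hw
          rw [ind_not (fun h => hw h.symm), mul_zero, zero_mul]
        · intro h
          exact absurd (Finset.mem_univ _) h
      simp only [e4]
      have e5 : ∑ u, ∑ e, ∑ w, M.kap jm u e * ind (M.ex u e = w) * B w =
          ∑ w, (∑ u, ∑ e, M.kap jm u e * ind (M.ex u e = w)) * B w := by
        simp only [Finset.sum_mul]
        symm
        refine Finset.sum_comm.trans ?_
        refine Finset.sum_congr rfl fun u _ => ?_
        exact Finset.sum_comm
      rw [e5]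
      refine Finset.sum_le_sum fun w _ => ?_
      exact (mul_le_mul_of_nonneg_right (hkx w) (hB w)).trans (le_of_eq (one_mul _))
    have h6 : 0 ≤ 2 / lam := by positivity
    refine (mul_le_mul_of_nonneg_left e3 h6).trans (le_of_eq ?_)
    ring

end Pool.Agent.Lib.MP_688fd0_co.TF.H62
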