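import Pool.Agent.Lib.MP_688fd0_co.TF.Iface3
import Pool.Agent.Lib.MP_688fd0_co.TE.H97.Stage

/-!
# Theorem F, module STAGEF: almost all outcomes of the fields are good

Port of the module STAGEP of Theorem E (helper67).
-/

set_option autoImplicit false

namespace Pool.Agent.Lib.MP_688fd0_co.TF.H62

open Pool.Agent.Lib.MP_688fd0_co.TE Pool.Agent.Lib.MP_688fd0_co.TE.H97 Pool.Agent.Lib.MP_688fd0_co.TF

universe u v w

theorem stf_num (N : ℝ) (hN : 10 ^ 6 ≤ N) :
    N ^ 3 * (1 / N ^ 14) + (N ^ 2 * (1 / N ^ 10) + N ^ 201 * (1 / N ^ 1000)) ≤ 1 / N ^ 2 := by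
  have h0 : 0 < N := by linarith [show (0 : ℝ) < 10 ^ 6 by norm_num]
  have h1 : 1 ≤ N := by linarith [show (1 : ℝ) ≤ 10 ^ 6 by norm_num]
  have e1 : N ^ 3 * (1 / N ^ 14) = 1 / N ^ 11 := by field_simp
  have e2 : N ^ 2 * (1 / N ^ 10) = 1 / N ^ 8 := by field_simp
  have e3 : N ^ 201 * (1 / N ^ 1000) = 1 / N ^ 799 := by
    rw [mul_one_div, div_eq_div_iff (by positivity) (by positivity), one_mul, ← pow_add]
  have key : ∀ k : ℕ, 3 ≤ k → 1 / N ^ k ≤ 1 / N ^ 2 * (1 / 10 ^ 6) := by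
    intro k hk
    rw [one_div_mul_one_div]
    refine one_div_le_one_div_of_le (by positivity) ?_
    calc N ^ 2 * 10 ^ 6 ≤ N ^ 2 * N := by gcongr
      _ = N ^ 3 := by ring
      _ ≤ N ^ k := pow_le_pow_right₀ h1 hk
  rw [e1, e2, e3]
  have k1 := key 11 (by norm_num)
  have k2 := key 8 (by norm_num)
  have k3 := key 799 (by norm_num)
  have h2 : 0 < 1 / N ^ 2 := by positivity
  nlinarith

/-- Module STAGEF. -/
theorem stagef (hLow : LOWF_S.{u, v}) (hD : LOWD_S.{u, v})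
    (hU : UPD_S.{0, max u v}) : STAGEF_S.{u, v, w} := by
  intro V Val _ _ _ a κ _ _ M jm X q b1 lam0 T W PP i0 E hP hκ hNH hPH hE ι _ h S hι hh hS hpt
  set N : ℝ := (Fintype.card V : ℝ) with hNdef
  -- the common law
  have hlaw : ∀ i, (M i).law = (M i0).law := by
    intro i
    unfold LM.law
    rw [hP i]
  have hpr0 : IsPr (M i0).law := by
    unfold LM.law
    exact isPr_piW _ fun _ => isPr_piW _ fun u => isPr_optW _ ((M i0).hP0 u) ((M i0).hP1 u)
  have hprT : IsPr (piW (fun _ : Fin T => (M i0).law)) := isPr_piW _ fun _ => hpr0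
  -- numerics
  have hX1 : (10 ^ 6 : ℝ) ≤ X := (hNH i0).X1
  have hX1' : (1 : ℝ) ≤ X := le_trans (by norm_num) hX1
  have hX0 : 0 < X := by linarith
  have hbX : X ^ 50000 ≤ b1 := (hNH i0).bX
  have hNX : X ≤ N := by
    calc X = X ^ 1 := (pow_one X).symm
      _ ≤ X ^ 50000 := pow_le_pow_right₀ hX1' (by norm_num)
      _ ≤ b1 := hbX
      _ ≤ N := (hNH i0).bn
  have hN6 : (10 ^ 6 : ℝ) ≤ N := hX1.trans hNX
  have hN0 : 0 < N := lt_of_lt_of_le (by norm_num) hN6
  have hN1 : (1 : ℝ) ≤ N := le_trans (by norm_num) hN6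
  have hT1 : (1 : ℝ) ≤ T := by exact_mod_cast (hNH i0).T1
  have hTT : (10 ^ 6 * T : ℝ) ^ 2 ≤ X :=
    (pow_le_pow_right₀ (by nlinarith) (by norm_num)).trans (hNH i0).TX
  have haa : (10 ^ 6 * (a + 1) : ℝ) ^ 2 ≤ X := by
    have ha0 : (0 : ℝ) ≤ a := Nat.cast_nonneg a
    exact (pow_le_pow_right₀ (by nlinarith) (by norm_num)).trans (hNH i0).aX
  have hTN : (T : ℝ) ≤ N := by
    refine le_trans ?_ hNX
    refine le_trans ?_ hTT
    nlinarith
  have haT : 4 * (T : ℝ) * a ≤ X := by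
    have ha0 : (0 : ℝ) ≤ a := Nat.cast_nonneg a
    nlinarith [sq_nonneg ((10 ^ 6 * T : ℝ) - 10 ^ 6 * (a + 1))]
  -- the bad events
  let E1 : κ × V × V → (Fin T → Fld a V Val) → Prop := fun p ω =>
    PP p.1 p.2.1 p.2.2 ∧
      ∀ t, (M p.1).Zgm jm ω (W p.1) (X ^ 5 * lam0) t p.2.1 p.2.2 < (M p.1).Fm jm p.2.1 p.2.2 / 4
  let E2 : κ × Fin T → (Fin T → Fld a V Val) → Prop := fun p ω => ¬ E p.1 (ω p.2)
  let E3 : ι × κ → (Fin T → Fld a V Val) → Prop := fun p ω =>
    X * (M p.2).pt * S p.1 ≤ ∑ t, (M p.2).tw (h p.1) (ω t)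
  have pb1 : ∀ p, Pr (piW (fun _ : Fin T => (M i0).law)) (E1 p) ≤ 1 / N ^ 14 := by
    rintro ⟨i, x, y⟩
    by_cases hp : PP i x y
    · have h1 := hLow V Val a (M i) jm X q b1 lam0 T (W i) x y (hNH i) (hPH i x y hp)
      rw [hlaw i] at h1
      refine le_trans (pr_mono _ hprT.nn _ _ ?_) h1
      intro ω hω
      exact hω.2
    · have h1 : Pr (piW (fun _ : Fin T => (M i0).law)) (E1 (i, x, y)) = 0 :=
        Finset.sum_eq_zero fun ω _ => by
          rw [ind_not (fun hω : E1 (i, x, y) ω => hp hω.1), mul_zero]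
      rw [h1]
      positivity
  have pb2 : ∀ p, Pr (piW (fun _ : Fin T => (M i0).law)) (E2 p) ≤ 1 / N ^ 10 := by
    rintro ⟨i, t⟩
    refine hU.2 (Fin T) (fun _ => Fld a V Val) (fun _ => (M i0).law) (fun _ => hpr0) _ t _ ?_
    intro ω
    refine le_trans (pr_mono _ hpr0.nn _ _ ?_) (hE i)
    intro c hc
    change ¬ E i (Function.update ω t c t) at hc
    rw [Function.update_self] at hc
    exact hc
  have pb3 : ∀ p, Pr (piW (fun _ : Fin T => (M i0).law)) (E3 p) ≤ 1 / N ^ 1000 := by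
    rintro ⟨i, j⟩
    have hb0 : 0 < b1 := lt_of_lt_of_le (pow_pos hX0 50000) hbX
    have hpt0 : 0 < (M j).pt := lt_of_lt_of_le (by positivity) (hpt j)
    have hSi := hS i
    have hS0 : 0 < S i := lt_of_lt_of_le one_pos hSi.2
    have h1 := hD V Val a (M j) T (h i) (S i) (X ^ 3 / b1) (X * (M j).pt * S i / 2)
      (fun v => (hh i v).1) (fun v => (hh i v).2) (by positivity) (by positivity) hSi.1 (by
        have : 0 ≤ (M j).pt * S i := by positivity
        nlinarith)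
    rw [hlaw j] at h1
    have h2 : ∀ ω : Fin T → Fld a V Val,
        (2 * (X * (M j).pt * S i / 2) ≤ ∑ t, (M j).tw (h i) (ω t)) ↔ E3 (i, j) ω := by
      intro ω
      change _ ↔ X * (M j).pt * S i ≤ ∑ t, (M j).tw (h i) (ω t)
      rw [mul_div_cancel₀ _ (two_ne_zero)]
    have h3 : Pr (piW (fun _ : Fin T => (M i0).law)) (E3 (i, j)) ≤
        Real.exp (-(X * (M j).pt * S i / 2 / (8 * (X ^ 3 / b1)))) :=
      le_trans (pr_mono _ hprT.nn _ _ fun ω hω => (h2 ω).2 hω) h1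
    refine h3.trans ?_
    have h4 : X ≤ X * (M j).pt * S i / 2 / (8 * (X ^ 3 / b1)) := by
      have e : X * (M j).pt * S i / 2 / (8 * (X ^ 3 / b1)) =
          (M j).pt * S i * b1 / (16 * X ^ 2) := by
        field_simp
        ring
      rw [e, le_div_iff₀ (by positivity)]
      have h5 : 1 / X ^ 4000 * 1 * X ^ 50000 ≤ (M j).pt * S i * b1 :=
        mul_le_mul (mul_le_mul (hpt j) hSi.2 (by norm_num) hpt0.le) hbX (by positivity)
          (by positivity)
      have h6 : 1 / X ^ 4000 * 1 * X ^ 50000 = X ^ 46000 := by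
        rw [mul_one, one_div_mul_eq_div, div_eq_iff (by positivity), ← pow_add]
      rw [h6] at h5
      refine le_trans ?_ h5
      have h7 : (16 : ℝ) ≤ X := le_trans (by norm_num) hX1
      calc X * (16 * X ^ 2) ≤ X * (X * X ^ 2) := by gcongr
        _ = X ^ 4 := by ring
        _ ≤ X ^ 46000 := pow_le_pow_right₀ hX1' (by norm_num)
    have h8 := (hNH i0).en _ h4
    rw [le_div_iff₀ (by positivity)]
    exact h8
  let E0 : (Fin T → Fld a V Val) → Prop := fun ω =>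
    ∃ t j u e, val (ω t) j u = some e ∧ (M i0).P u e = 0
  have pb0 : Pr (piW (fun _ : Fin T => (M i0).law)) E0 = 0 := by
    refine Finset.sum_eq_zero fun ω _ => ?_
    by_cases h0 : E0 ω
    · obtain ⟨t, j, u, e, he, hPe⟩ := h0
      have h4 : piW (fun _ : Fin T => (M i0).law) ω = 0 := by
        by_contra hω
        unfold val at he
        split_ifs at he with hj
        have h1 : (M i0).law (ω t) ≠ 0 := by
          intro h0
          exact hω (Finset.prod_eq_zero (Finset.mem_univ t) h0)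
        have h2 : piW (fun u : V => optW ((M i0).P u)) (ω t ⟨j, hj⟩) ≠ 0 := by
          intro h0
          exact h1 (Finset.prod_eq_zero (Finset.mem_univ (⟨j, hj⟩ : Fin a)) h0)
        have h3 : optW ((M i0).P u) (ω t ⟨j, hj⟩ u) ≠ 0 := by
          intro h0
          exact h2 (Finset.prod_eq_zero (Finset.mem_univ u) h0)
        rw [he] at h3
        exact h3 hPe
      rw [h4, zero_mul]
    · rw [ind_not h0, mul_zero]
  have sub : ∀ ω : Fin T → Fld a V Val, ¬ StageF M jm X (X ^ 5 * lam0) W PP h S E ω →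
      (E0 ω ∨ ((∃ p, E1 p ω) ∨ ((∃ p, E2 p ω) ∨ (∃ p, E3 p ω)))) := by
    intro ω hω
    by_contra hgood
    obtain ⟨g0, hg⟩ := not_or.1 hgood
    obtain ⟨g1, hg⟩ := not_or.1 hg
    obtain ⟨g2, g3⟩ := not_or.1 hg
    rw [not_exists] at g1 g2 g3
    refine hω ⟨?_, ?_, ?_, ?_⟩
    · intro i t j u e he hPe
      rw [hP i] at hPe
      exact g0 ⟨t, j, u, e, he, hPe⟩
    · intro i x y hp
      have h1 := g1 (i, x, y)
      by_contra hcon
      push Not at hcon
      exact h1 ⟨hp, hcon⟩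
    · intro i t
      exact not_not.1 (g2 (i, t))
    · intro i j
      exact (not_le.1 (g3 (i, j))).le
  refine (pr_mono _ hprT.nn _ _ sub).trans ?_
  refine le_trans (pr_or _ hprT.nn _ _) ?_
  rw [pb0, zero_add]
  refine le_trans (pr_or _ hprT.nn _ _) ?_
  refine le_trans (add_le_add (pr_exists_le _ hprT.nn E1 _ pb1) (pr_or _ hprT.nn _ _)) ?_
  refine le_trans (add_le_add le_rfl (add_le_add (pr_exists_le _ hprT.nn E2 _ pb2)
    (pr_exists_le _ hprT.nn E3 _ pb3))) ?_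
  refine le_trans ?_ (stf_num N hN6)
  have c1 : ((Fintype.card (κ × V × V) : ℕ) : ℝ) ≤ N ^ 3 := by
    rw [Fintype.card_prod, Fintype.card_prod]
    push_cast
    rw [← hNdef]
    calc (Fintype.card κ : ℝ) * (N * N) ≤ N * (N * N) := by gcongr
      _ = N ^ 3 := by ring
  have c2 : ((Fintype.card (κ × Fin T) : ℕ) : ℝ) ≤ N ^ 2 := by
    rw [Fintype.card_prod, Fintype.card_fin]
    push_cast
    calc (Fintype.card κ : ℝ) * T ≤ N * N := by gcongr
      _ = N ^ 2 := by ring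
  have c3 : ((Fintype.card (ι × κ) : ℕ) : ℝ) ≤ N ^ 201 := by
    rw [Fintype.card_prod]
    push_cast
    calc (Fintype.card ι : ℝ) * Fintype.card κ ≤ N ^ 200 * N := by gcongr
      _ = N ^ 201 := by rw [← pow_succ]
  gcongr

end Pool.Agent.Lib.MP_688fd0_co.TF.H62
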